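import Pool.Agent.GA.Stmts

/-!
# MP_585e9a_al, row MEAS: measurability of `nu` and of the edge term
-/

set_option autoImplicit false

open MeasureTheory Complex Filter
open scoped ENNReal Topology

namespace Pool.GA

section proj
variable {H : Type} [NormedAddCommGroup H] [InnerProductSpace ℂ H] [CompleteSpace H]

/-- span of the first `m` vectors -/
def NN (f : ℕ → H) : ℕ → Submodule ℂ H
  | 0 => ⊥
  | (m + 1) => NN f m ⊔ Submodule.span ℂ {f m}

omit [CompleteSpace H] in
theorem NN_fin (f : ℕ → H) (m : ℕ) : FiniteDimensional ℂ (NN f m) := by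
  induction m with
  | zero =>
    change FiniteDimensional ℂ (⊥ : Submodule ℂ H)
    infer_instance
  | succ m ih =>
    change FiniteDimensional ℂ ↥(NN f m ⊔ Submodule.span ℂ {f m})
    infer_instance

omit [CompleteSpace H] in
instance NN_complete (f : ℕ → H) (m : ℕ) : (NN f m).HasOrthogonalProjection := by
  have := NN_fin f m
  infer_instance

omit [CompleteSpace H] in
theorem NN_mono (f : ℕ → H) : Monotone (NN f) :=
  monotone_nat_of_le_succ fun _ => le_sup_left

omit [CompleteSpace H] in
theorem iSup_NN (f : ℕ → H) : (⨆ m, NN f m) = Submodule.span ℂ (Set.range f) := by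
  refine le_antisymm (iSup_le fun m => ?_) (Submodule.span_le.2 ?_)
  · induction m with
    | zero => exact bot_le
    | succ m ih =>
      refine sup_le ih (Submodule.span_le.2 ?_)
      rintro _ rfl
      exact Submodule.subset_span ⟨m, rfl⟩
  · rintro _ ⟨m, rfl⟩
    exact (le_iSup (NN f) (m + 1)) ((le_sup_right : _ ≤ NN f m ⊔ Submodule.span ℂ {f m})
      (Submodule.subset_span rfl))

omit [CompleteSpace H] in
/-- one step of the Gram-Schmidt process -/
theorem proj_sup (N N' : Submodule ℂ H) [N.HasOrthogonalProjection] [N'.HasOrthogonalProjection]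
    (v u : H) (hN : N' = N ⊔ Submodule.span ℂ {v}) :
    N'.starProjection u = N.starProjection u +
      (inner ℂ (v - N.starProjection v) u / ((‖v - N.starProjection v‖ : ℂ) ^ 2)) •
        (v - N.starProjection v) := by
  set w := v - N.starProjection v with hw
  set c : ℂ := inner ℂ w u / ((‖w‖ : ℂ) ^ 2) with hc
  have hNN' : N ≤ N' := hN ▸ le_sup_left
  have hv' : v ∈ N' := by
    rw [hN]; exact (le_sup_right : _ ≤ N ⊔ Submodule.span ℂ {v}) (Submodule.subset_span rfl)
  have hwN' : w ∈ N' := N'.sub_mem hv' (hNN' (N.starProjection_apply_mem v))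
  have hwN : ∀ y ∈ N, inner ℂ w y = (0 : ℂ) := fun y hy =>
    N.starProjection_inner_eq_zero v y hy
  have huN : ∀ y ∈ N, inner ℂ (u - N.starProjection u) y = (0 : ℂ) := fun y hy =>
    N.starProjection_inner_eq_zero u y hy
  refine Submodule.eq_starProjection_of_mem_of_inner_eq_zero
    (N'.add_mem (hNN' (N.starProjection_apply_mem u)) (N'.smul_mem _ hwN')) ?_
  have h1 : ∀ y ∈ N, inner ℂ (u - (N.starProjection u + c • w)) y = (0 : ℂ) := by
    intro y hy
    rw [← sub_sub, inner_sub_left, huN y hy, inner_smul_left, hwN y hy, mul_zero, sub_zero]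
  have h2 : inner ℂ (u - (N.starProjection u + c • w)) w = (0 : ℂ) := by
    rcases eq_or_ne w 0 with h0 | h0
    · rw [h0, inner_zero_right]
    · rw [← sub_sub, inner_sub_left, inner_sub_left, inner_smul_left]
      have h3 : inner ℂ (N.starProjection u) w = (0 : ℂ) := by
        rw [← inner_conj_symm, hwN _ (N.starProjection_apply_mem u), map_zero]
      have h4 : (‖w‖ : ℂ) ^ 2 ≠ 0 := pow_ne_zero 2 (Complex.ofReal_ne_zero.2 (norm_ne_zero_iff.2 h0))
      rw [h3, sub_zero, hc, map_div₀, inner_conj_symm, map_pow, Complex.conj_ofReal,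
        inner_self_eq_norm_sq_to_K]
      change inner ℂ u w - inner ℂ u w / (‖w‖ : ℂ) ^ 2 * (‖w‖ : ℂ) ^ 2 = 0
      rw [div_mul_cancel₀ _ h4, sub_self]
  have h5 : inner ℂ (u - (N.starProjection u + c • w)) v = (0 : ℂ) := by
    have : v = w + N.starProjection v := by rw [hw]; abel
    rw [this, inner_add_right, h2, h1 _ (N.starProjection_apply_mem v), add_zero]
  intro y hy
  rw [hN] at hy
  obtain ⟨y1, hy1, y2, hy2, rfl⟩ := Submodule.mem_sup.1 hy
  obtain ⟨a, rfl⟩ := Submodule.mem_span_singleton.1 hy2
  rw [inner_add_right, h1 _ hy1, inner_smul_right, h5, mul_zero, add_zero]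

variable {Ω : Type} [MeasurableSpace Ω]

omit [CompleteSpace H] in
theorem meas_NN (f : ℕ → Ω → H) (hf : ∀ n, StronglyMeasurable (f n)) (m : ℕ) :
    ∀ u : Ω → H, StronglyMeasurable u →
      StronglyMeasurable fun t => (NN (fun n => f n t) m).starProjection (u t) := by
  induction m with
  | zero =>
    intro u _
    have : (fun t => (NN (fun n => f n t) 0).starProjection (u t)) = fun _ => 0 := by
      funext t
      have h := (NN (fun n => f n t) 0).starProjection_apply_mem (u t)
      exact (Submodule.mem_bot ℂ).1 h
    rw [this]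
    exact stronglyMeasurable_const
  | succ m ih =>
    intro u hu
    have e : (fun t => (NN (fun n => f n t) (m + 1)).starProjection (u t)) = fun t =>
      (NN (fun n => f n t) m).starProjection (u t) +
      (inner ℂ (f m t - (NN (fun n => f n t) m).starProjection (f m t)) (u t) /
        ((‖f m t - (NN (fun n => f n t) m).starProjection (f m t)‖ : ℂ) ^ 2)) •
        (f m t - (NN (fun n => f n t) m).starProjection (f m t)) := by
      funext t
      exact proj_sup _ _ (f m t) (u t) rfl
    rw [e]
    have hw : StronglyMeasurable fun t => f m t - (NN (fun n => f n t) m).starProjection (f m t) :=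
      (hf m).sub (ih _ (hf m))
    have h1 : StronglyMeasurable fun t =>
        (inner ℂ (f m t - (NN (fun n => f n t) m).starProjection (f m t)) (u t) : ℂ) := hw.inner hu
    have h2 : StronglyMeasurable fun t =>
        ((‖f m t - (NN (fun n => f n t) m).starProjection (f m t)‖ : ℂ) ^ 2) :=
      (((Complex.measurable_ofReal).comp hw.norm.measurable).pow_const 2).stronglyMeasurable
    exact (ih u hu).add ((h1.measurable.div h2.measurable).stronglyMeasurable.smul hw)

theorem meas_proj (f : ℕ → Ω → H) (hf : ∀ n, StronglyMeasurable (f n)) (u : Ω → H)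
    (hu : StronglyMeasurable u) (N : Ω → Submodule ℂ H) [∀ t, (N t).HasOrthogonalProjection]
    (hN : ∀ t, N t = (Submodule.span ℂ (Set.range fun n => f n t)).topologicalClosure) :
    StronglyMeasurable fun t => (N t).starProjection (u t) := by
  refine stronglyMeasurable_of_tendsto (f := fun m t => (NN (fun n => f n t) m).starProjection (u t))
    atTop (fun m => meas_NN f hf m u hu) ?_
  rw [tendsto_pi_nhds]
  intro t
  have h := Submodule.starProjection_tendsto_closure_iSup (NN fun n => f n t)
    (NN_mono fun n => f n t) (u t)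
  have e : (⨆ m, NN (fun n => f n t) m).topologicalClosure = N t := by
    rw [iSup_NN, hN]
  have e2 : ∀ (A B : Submodule ℂ H) [A.HasOrthogonalProjection] [B.HasOrthogonalProjection],
      A = B → A.starProjection (u t) = B.starProjection (u t) := by
    intro A B _ _ h; subst h; rfl
  rwa [e2 _ _ e] at h

/-- the same for a countable family -/
theorem meas_proj' {I : Type} [Countable I] (f : I → Ω → H) (hf : ∀ n, StronglyMeasurable (f n))
    (u : Ω → H) (hu : StronglyMeasurable u) (N : Ω → Submodule ℂ H)
    [∀ t, (N t).HasOrthogonalProjection]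
    (hN : ∀ t, N t = (Submodule.span ℂ (Set.range fun n => f n t)).topologicalClosure) :
    StronglyMeasurable fun t => (N t).starProjection (u t) := by
  obtain ⟨g, hg⟩ := exists_surjective_nat (Option I)
  set F : ℕ → Ω → H := fun n t => (g n).elim 0 (fun i => f i t) with hF
  have hO : ∀ o : Option I, StronglyMeasurable (fun t : Ω => (o.elim 0 (fun i => f i t) : H)) := by
    rintro (_ | i)
    · exact stronglyMeasurable_const
    · exact hf i
  refine meas_proj F (fun n => hO (g n)) u hu N fun t => ?_
  · rw [hN]
    congr 1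
    refine le_antisymm (Submodule.span_le.2 ?_) (Submodule.span_le.2 ?_)
    · rintro _ ⟨i, rfl⟩
      obtain ⟨n, hn⟩ := hg (some i)
      refine Submodule.subset_span ⟨n, ?_⟩
      simp only [hF, hn, Option.elim_some]
    · rintro _ ⟨n, rfl⟩
      simp only [hF]
      rcases g n with _ | i
      · exact Submodule.zero_mem _
      · exact Submodule.subset_span ⟨i, rfl⟩

end proj

namespace Sys
variable {X Y E : Type} (S : Sys X Y E)
variable {Ω : Type} [MeasurableSpace Ω]

theorem meas_eval (z : Ω → E → ℂ) (hz : ∀ e, Measurable fun t => z t e) (p : MvPolynomial E ℂ) :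
    Measurable fun t => MvPolynomial.eval (z t) p := by
  induction p using MvPolynomial.induction_on with
  | C a => simp only [MvPolynomial.eval_C]; exact measurable_const
  | add p q hp hq => simp only [map_add]; exact hp.add hq
  | mul_X p e hp => simp only [map_mul, MvPolynomial.eval_X]; exact hp.mul (hz e)

theorem meas_vec (z : Ω → E → ℂ) (hz : ∀ e, Measurable fun t => z t e) (i : Y) :
    StronglyMeasurable fun t => S.vec (z t) i := by
  unfold Sys.vec
  refine Finset.stronglyMeasurable_fun_sum _ fun x _ => ?_
  exact (meas_eval z hz _).stronglyMeasurable.smul_const _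

theorem meas_b [Countable Y] (J : Finset Y) (z : Ω → E → ℂ) (hz : ∀ e, Measurable fun t => z t e)
    (i : Y) : StronglyMeasurable fun t => S.b J (z t) i := by
  unfold Sys.b
  refine (S.meas_vec z hz i).sub ?_
  refine meas_proj' (I := {i : Y // i ∉ J}) (fun i t => S.vec (z t) i.1)
    (fun i => S.meas_vec z hz i.1) _ (S.meas_vec z hz i) (fun t => S.W J (z t)) fun t => ?_
  unfold Sys.W
  congr 2
  ext v
  constructor
  · rintro ⟨i, hi, rfl⟩
    exact ⟨⟨i, hi⟩, rfl⟩
  · rintro ⟨i, rfl⟩
    exact ⟨i.1, i.2, rfl⟩

theorem meas_det {ι : Type} [Fintype ι] [DecidableEq ι] (M : Ω → Matrix ι ι ℂ)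
    (hM : ∀ i j, Measurable fun t => M t i j) : Measurable fun t => (M t).det := by
  simp only [Matrix.det_apply]
  refine Finset.measurable_fun_sum _ fun σ _ => ?_
  refine Measurable.const_smul ?_ _
  exact Finset.measurable_fun_prod _ fun i _ => hM _ _

theorem meas_gram [Countable Y] (J K : Finset Y) (z z' : Ω → E → ℂ)
    (hz : ∀ e, Measurable fun t => z t e) (hz' : ∀ e, Measurable fun t => z' t e) :
    Measurable fun t => S.gram J K (z t) (z' t) := by
  classical
  unfold Sys.gram
  refine meas_det _ fun i j => ?_
  simp only [Matrix.of_apply]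
  exact ((S.meas_b J z' hz' j).inner (S.meas_b J z hz i)).measurable

theorem meas_ang [Countable Y] (J K : Finset Y) (z z' : Ω → E → ℂ)
    (hz : ∀ e, Measurable fun t => z t e) (hz' : ∀ e, Measurable fun t => z' t e) :
    Measurable fun t => S.ang J K (z t) (z' t) := by
  unfold Sys.ang
  exact ((S.meas_gram J K z z' hz hz').norm.pow_const 2).div
    ((Complex.measurable_re.comp (S.meas_gram J K z z hz hz)).mul
      (Complex.measurable_re.comp (S.meas_gram J K z' z' hz' hz')))

theorem meas_update (z : Ω → E → ℂ) (hz : ∀ e, Measurable fun t => z t e) (e : E) (f : Ω → ℂ)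
    (hf : Measurable f) : ∀ e', Measurable fun t =>
      (open Classical in Function.update (z t) e (f t)) e' := by
  classical
  intro e'
  by_cases h : e' = e
  · subst h
    simp only [Function.update_self]
    exact hf
  · simp only [ne_eq, h, not_false_eq_true, Function.update_of_ne]
    exact hz e'

theorem meas_kapK [Countable Y] (K : Finset Y) (e : E) (z : Ω → E → ℂ)
    (hz : ∀ e, Measurable fun t => z t e) : Measurable fun t => S.kapK K e (z t) := by
  unfold Sys.kapK
  refine Measurable.liminf fun n => ?_
  refine (measurable_const.mul (measurable_const.sub ?_)).ennreal_ofReal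
  exact S.meas_ang (S.B e) K z _ hz (meas_update z hz e _ ((hz e).add_const _))

theorem meas_isBas [Countable Y] (e : E) (K : Finset Y) (z : Ω → E → ℂ)
    (hz : ∀ e, Measurable fun t => z t e) : MeasurableSet {t | S.IsBas e K (z t)} := by
  classical
  have e1 : {t | S.IsBas e K (z t)} = {t | S.gram (S.B e) K (z t) (z t) ≠ 0} ∩
      ⋂ K' ∈ (S.B e).powerset.filter (fun K' => K.card < K'.card),
        {t | S.gram (S.B e) K' (z t) (z t) = 0} := by
    ext t
    simp only [Set.mem_ofPred_eq, Set.mem_inter_iff, Set.mem_iInter, Finset.mem_filter, and_imp]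
    rfl
  rw [e1]
  refine MeasurableSet.inter ?_ (Finset.measurableSet_biInter _ fun K' _ => ?_)
  · exact (S.meas_gram (S.B e) K z z hz hz) (measurableSet_singleton (0 : ℂ)).compl
  · exact (S.meas_gram (S.B e) K' z z hz hz) (measurableSet_singleton (0 : ℂ))

theorem meas_kap [Countable Y] (e : E) (z : Ω → E → ℂ)
    (hz : ∀ e, Measurable fun t => z t e) : Measurable fun t => S.kap e (z t) := by
  classical
  unfold Sys.kap
  simp only [Finset.sup_eq_iSup]
  refine Measurable.iSup fun K => Measurable.iSup fun _ => ?_
  exact Measurable.ite (S.meas_isBas e K z hz) (S.meas_kapK K e z hz) measurable_const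

end Sys

theorem meas_ph {E : Type} {Ω : Type} [MeasurableSpace Ω] (f : Ω → E → ℝ) (hf : Measurable f)
    (e : E) : Measurable fun t => ph (f t) e := by
  unfold ph
  have h : Measurable fun t => f t e := (measurable_pi_apply e).comp hf
  exact Complex.measurable_exp.comp ((Complex.measurable_ofReal.comp h).mul_const I)

theorem stmtMNu : StmtMNu := by
  intro X Y E _ _ _ S x
  unfold Sys.nu
  refine Complex.measurable_re.comp ?_
  have h : StronglyMeasurable fun ω : E → ℝ => (S.N (ph ω)).starProjection (del x) :=
    meas_proj' (I := Y) (fun i ω => S.vec (ph ω) i)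
      (fun i => S.meas_vec _ (meas_ph id measurable_id) i) _ stronglyMeasurable_const
      (fun ω => S.N (ph ω)) fun _ => rfl
  have h2 : (fun ω : E → ℝ => ((S.N (ph ω)).starProjection (del x) : L2 X) x) = fun ω =>
      inner ℂ (del x) ((S.N (ph ω)).starProjection (del x)) := by
    classical
    funext ω
    unfold del
    rw [lp.inner_single_left]
    simp
  rw [h2]
  exact (stronglyMeasurable_const.inner h).measurable

theorem stmtMGam : StmtMGam := by
  intro X Y E _ _ _ S e
  unfold Sys.gamE
  have h : Measurable fun p : ((E → ℝ) × ℝ) × ℝ => ENNReal.ofReal (p.1.2 / Real.pi) *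
      S.kap e (open Classical in Function.update (ph p.1.1) e (pol p.1.2 p.2)) := by
    refine Measurable.mul ?_ ?_
    · exact ((measurable_snd.comp measurable_fst).div_const _).ennreal_ofReal
    · refine S.meas_kap e _ ?_
      refine Sys.meas_update _ (meas_ph _ (measurable_fst.comp measurable_fst)) e _ ?_
      unfold pol
      exact (Complex.measurable_ofReal.comp (measurable_snd.comp measurable_fst)).mul
        (Complex.measurable_exp.comp ((Complex.measurable_ofReal.comp measurable_snd).mul_const I))
  have h2 := Measurable.lintegral_prod_right' (ν := volume.restrict (Set.Ioc (0 : ℝ) (2 * Real.pi))) h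
  exact Measurable.lintegral_prod_right' (ν := volume.restrict (Set.Ioo (0 : ℝ) 1)) h2

end Pool.GA
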