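import Pool.Agent.Helper58.GA.OneC

/-!
# MP_585e9a_al, row ONE, part D: ONE1, ONE2, ONE3
-/

set_option autoImplicit false

open MeasureTheory Complex Filter
open scoped ENNReal Topology

namespace Pool.GA

section
variable {ι : Type} [Fintype ι]

theorem ip_norm_le (s t : ι → Polynomial ℂ) (u : ℂ) : ‖ip s t u u‖ ^ 2 ≤ sq s u * sq t u := by
  unfold ip sq
  refine le_trans ?_ (Finset.sum_mul_sq_le_sq_mul_sq Finset.univ (fun f => ‖(s f).eval u‖)
    (fun f => ‖(t f).eval u‖))
  refine pow_le_pow_left₀ (norm_nonneg _) ((norm_sum_le _ _).trans ?_) 2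
  refine Finset.sum_le_sum fun f _ => ?_
  rw [norm_mul, Complex.norm_conj]

theorem kk_nonneg (s : ι → Polynomial ℂ) (u : ℂ) : 0 ≤ kk s u := by
  unfold kk
  refine div_nonneg ?_ (sq_nonneg _)
  have := ip_norm_le (fun f => Polynomial.derivative (s f)) s u
  linarith [mul_comm (sq s u) (sq (fun f => Polynomial.derivative (s f)) u)]

theorem continuous_rkk (s : ι → Polynomial ℂ) (h : ∀ u, sq s u ≠ 0) :
    Continuous fun p : ℝ × ℝ => p.1 / Real.pi * kk s (pol p.1 p.2) :=
  (continuous_fst.div_const _).mul ((continuous_kk s h).comp continuous_pol)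

end

theorem one1 : StmtOne1 := by
  intro ι _ s h
  have hsq : ∀ u, sq s u ≠ 0 := fun u => (sq_pos_of s u (h u)).ne'
  have hc := continuous_rkk s hsq
  have hin : ∀ r : ℝ, 0 < r → (∫⁻ θ in Set.Ioc (0 : ℝ) (2 * Real.pi),
      ENNReal.ofReal (r / Real.pi) * ENNReal.ofReal (kk s (pol r θ))) =
      ENNReal.ofReal (∫ θ in (0 : ℝ)..2 * Real.pi, r / Real.pi * kk s (pol r θ)) := by
    intro r hr
    rw [intervalIntegral.integral_of_le (by positivity), ofReal_integral_eq_lintegral_ofReal]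
    · refine lintegral_congr fun θ => ?_
      rw [ENNReal.ofReal_mul (by positivity)]
    · exact ((hc.comp (Continuous.prodMk_right r)).integrableOn_Icc (a := 0)
        (b := 2 * Real.pi)).mono_set Set.Ioc_subset_Icc_self
    · exact ae_of_all _ fun θ => mul_nonneg (by positivity) (kk_nonneg s _)
  rw [setLIntegral_congr_fun measurableSet_Ioo fun r hr => hin r hr.1]
  have hcr : Continuous fun r : ℝ => ∫ θ in (0 : ℝ)..2 * Real.pi, r / Real.pi * kk s (pol r θ) :=
    intervalIntegral.continuous_parametric_intervalIntegral_of_continuous' hc 0 (2 * Real.pi)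
  rw [mean_cc s h, intervalIntegral.integral_of_le zero_le_one, integral_Ioc_eq_integral_Ioo,
    ofReal_integral_eq_lintegral_ofReal]
  · exact (hcr.integrableOn_Icc (a := 0) (b := 1)).mono_set Set.Ioo_subset_Icc_self
  · refine (ae_restrict_iff' measurableSet_Ioo).2 (ae_of_all _ fun r hr => ?_)
    exact intervalIntegral.integral_nonneg (by positivity) fun θ _ =>
      mul_nonneg (div_nonneg hr.1.le Real.pi_pos.le) (kk_nonneg s _)

theorem cmean_nonneg {ι : Type} [Fintype ι] (s : ι → Polynomial ℂ)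
    (h : ∀ u : ℂ, ∃ f, (s f).eval u ≠ 0) : 0 ≤ cmean (cc s 0) := by
  rw [mean_cc s h]
  exact intervalIntegral.integral_nonneg zero_le_one fun r hr =>
    intervalIntegral.integral_nonneg (by positivity) fun θ _ =>
      mul_nonneg (div_nonneg hr.1 Real.pi_pos.le) (kk_nonneg s _)

theorem eval_reflect' (N : ℕ) (p : Polynomial ℂ) (hp : p.natDegree ≤ N) (u : ℂ) (hu : u ≠ 0) :
    (p.reflect N).eval u = u ^ N * p.eval u⁻¹ := by
  have : Invertible (u⁻¹) := invertibleOfNonzero (inv_ne_zero hu)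
  have h := Polynomial.eval₂_reflect_mul_pow (RingHom.id ℂ) (u⁻¹) N p hp
  rw [invOf_eq_inv, inv_inv] at h
  change (p.reflect N).eval u * u⁻¹ ^ N = p.eval u⁻¹ at h
  rw [← h, mul_left_comm, ← mul_pow, mul_inv_cancel₀ hu, one_pow, mul_one]

theorem eval_derivative_reflect (N : ℕ) (p : Polynomial ℂ) (hp : p.natDegree ≤ N) (u : ℂ)
    (hu : u ≠ 0) :
    u * (Polynomial.derivative (p.reflect N)).eval u =
      N * (p.reflect N).eval u - u ^ N * (u⁻¹ * (Polynomial.derivative p).eval u⁻¹) := by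
  have h1 : HasDerivAt (fun u : ℂ => u ^ N * p.eval u⁻¹)
      ((N * u ^ (N - 1)) * p.eval u⁻¹ +
        u ^ N * ((Polynomial.derivative p).eval u⁻¹ * (-(u ^ 2)⁻¹))) u :=
    (hasDerivAt_pow N u).mul ((p.hasDerivAt u⁻¹).comp u (hasDerivAt_inv hu))
  have h2 : HasDerivAt (fun u : ℂ => (p.reflect N).eval u)
      ((Polynomial.derivative (p.reflect N)).eval u) u := (p.reflect N).hasDerivAt u
  have h3 : (fun u : ℂ => (p.reflect N).eval u) =ᶠ[𝓝 u] fun u : ℂ => u ^ N * p.eval u⁻¹ := by
    filter_upwards [isOpen_ne.mem_nhds hu] with v hv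
    exact eval_reflect' N p hp v hv
  have h4 := (h1.congr_of_eventuallyEq h3).unique h2
  rw [← h4, eval_reflect' N p hp u hu]
  have h5 : u * (N * u ^ (N - 1)) = N * u ^ N := by
    rcases N with _ | N
    · simp
    · rw [Nat.add_sub_cancel, pow_succ]; ring
  have h6 : u * (u ^ 2)⁻¹ = u⁻¹ := by field_simp
  calc u * (N * u ^ (N - 1) * p.eval u⁻¹ +
        u ^ N * ((Polynomial.derivative p).eval u⁻¹ * (-(u ^ 2)⁻¹)))
      = (u * (N * u ^ (N - 1))) * p.eval u⁻¹ -
        u ^ N * ((u * (u ^ 2)⁻¹) * (Polynomial.derivative p).eval u⁻¹) := by ring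
    _ = _ := by rw [h5, h6]; ring

section
variable {ι : Type} [Fintype ι]

/-- the reversed vector -/
noncomputable def rv (N : ℕ) (s : ι → Polynomial ℂ) : ι → Polynomial ℂ := fun f => (s f).reflect N

theorem sq_rv (N : ℕ) (s : ι → Polynomial ℂ) (hs : ∀ f, (s f).natDegree ≤ N) (u : ℂ) (hu : ‖u‖ = 1) :
    sq (rv N s) u = sq s u⁻¹ := by
  have hu0 : u ≠ 0 := by rintro rfl; simp at hu
  unfold sq rv
  refine Finset.sum_congr rfl fun f _ => ?_
  rw [eval_reflect' N _ (hs f) u hu0, norm_mul, norm_pow, hu, one_pow, one_mul]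

theorem cc_rv (N : ℕ) (s : ι → Polynomial ℂ) (hs : ∀ f, (s f).natDegree ≤ N) (u : ℂ)
    (hu : ‖u‖ = 1) (h0 : sq s u⁻¹ ≠ 0) :
    cc (rv N s) 0 u = N - cc s 0 u⁻¹ := by
  have hu0 : u ≠ 0 := by rintro rfl; simp at hu
  have e1 : u * ip (fun f => Polynomial.derivative (rv N s f)) (rv N s) u u =
      N * (sq s u⁻¹ : ℝ) - u⁻¹ * ip (fun f => Polynomial.derivative (s f)) s u⁻¹ u⁻¹ := by
    rw [← sq_rv N s hs u hu, sq_eq]
    unfold ip
    rw [Finset.mul_sum, Finset.mul_sum, Finset.mul_sum, ← Finset.sum_sub_distrib]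
    refine Finset.sum_congr rfl fun f _ => ?_
    rw [← mul_assoc]
    unfold rv
    rw [eval_derivative_reflect N _ (hs f) u hu0, sub_mul]
    congr 1
    · ring
    · rw [eval_reflect' N _ (hs f) u hu0, map_mul]
      have h7 : u ^ N * (starRingEnd ℂ) (u ^ N) = 1 := by
        rw [Complex.mul_conj', norm_pow, hu]; simp
      calc u ^ N * (u⁻¹ * (Polynomial.derivative (s f)).eval u⁻¹) *
            ((starRingEnd ℂ) (u ^ N) * (starRingEnd ℂ) ((s f).eval u⁻¹))
          = (u ^ N * (starRingEnd ℂ) (u ^ N)) * (u⁻¹ * ((Polynomial.derivative (s f)).eval u⁻¹ *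
            (starRingEnd ℂ) ((s f).eval u⁻¹))) := by ring
        _ = _ := by rw [h7, one_mul]
  unfold cc
  rw [e1, sq_rv N s hs u hu, add_zero, Complex.sub_re]
  rw [show (N : ℂ) * ((sq s u⁻¹ : ℝ) : ℂ) = ((N * sq s u⁻¹ : ℝ) : ℂ) by push_cast; rfl,
    Complex.ofReal_re, sub_div, mul_div_cancel_right₀ _ h0]

end

theorem cmean_inv (g : ℂ → ℝ) : cmean (fun u => g u⁻¹) = cmean g := by
  unfold cmean mu0
  rw [integral_smul_measure, integral_smul_measure]
  congr 1
  rw [← intervalIntegral.integral_of_le (by positivity), ← intervalIntegral.integral_of_le (by positivity)]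
  have h1 : ∀ θ : ℝ, g (Complex.exp (θ * I))⁻¹ = g (Complex.exp (((-θ : ℝ) : ℂ) * I)) := by
    intro θ
    rw [← Complex.exp_neg]
    congr 2
    push_cast; ring
  simp_rw [h1]
  rw [intervalIntegral.integral_comp_neg (fun θ : ℝ => g (Complex.exp ((θ : ℂ) * I))), neg_zero]
  have hp : Function.Periodic (fun θ : ℝ => g (Complex.exp ((θ : ℂ) * I))) (2 * Real.pi) := by
    intro θ
    change g (Complex.exp (((θ + 2 * Real.pi : ℝ) : ℂ) * I)) = _
    congr 1
    push_cast
    rw [add_mul, Complex.exp_add, Complex.exp_two_pi_mul_I, mul_one]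
  have := hp.intervalIntegral_add_eq (-(2 * Real.pi)) 0
  rw [neg_add_cancel, zero_add] at this
  exact this

theorem one3 : StmtOne3 := by
  intro ι _ s N h hN
  refine ⟨cmean_nonneg s h, ?_⟩
  set M : ℕ := Finset.univ.sup fun f => (s f).natDegree with hM
  have hsM : ∀ f, (s f).natDegree ≤ M := fun f =>
    Finset.le_sup (f := fun f => (s f).natDegree) (Finset.mem_univ f)
  have hMN : M ≤ N := Finset.sup_le fun f _ => hN f
  have ht : ∀ u : ℂ, ∃ f, (rv M s f).eval u ≠ 0 := by
    intro u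
    rcases eq_or_ne u 0 with rfl | hu
    · have hc : ∀ f, (rv M s f).eval 0 = (s f).coeff M := by
        intro f
        unfold rv
        rw [← Polynomial.coeff_zero_eq_eval_zero, Polynomial.coeff_reflect, Polynomial.revAt_zero]
      rcases Nat.eq_zero_or_pos M with h0 | h0
      · obtain ⟨f, hf⟩ := h 0
        refine ⟨f, ?_⟩
        rw [hc, h0, Polynomial.coeff_zero_eq_eval_zero]
        exact hf
      · obtain ⟨f₀, -⟩ := h 0
        obtain ⟨f, -, hf⟩ := Finset.exists_mem_eq_sup Finset.univ ⟨f₀, Finset.mem_univ f₀⟩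
          fun f => (s f).natDegree
        refine ⟨f, ?_⟩
        rw [hc, hM, hf]
        change (s f).leadingCoeff ≠ 0
        rw [Polynomial.leadingCoeff_ne_zero]
        rintro h1
        rw [hM, hf, h1, Polynomial.natDegree_zero] at h0
        exact lt_irrefl _ h0
    · obtain ⟨f, hf⟩ := h u⁻¹
      refine ⟨f, ?_⟩
      unfold rv
      rw [eval_reflect' M _ (hsM f) u hu]
      exact mul_ne_zero (pow_ne_zero _ hu) hf
  have h1 := cmean_nonneg (rv M s) ht
  have hsq : ∀ u, sq s u ≠ 0 := fun u => (sq_pos_of s u (h u)).ne'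
  have h2 : cmean (cc (rv M s) 0) = M - cmean (cc s 0) := by
    rw [← cmean_inv (cc s 0)]
    unfold cmean
    have h3 : ∀ θ : ℝ, cc (rv M s) 0 (Complex.exp (θ * I)) =
        M - cc s 0 (Complex.exp (θ * I))⁻¹ := fun θ =>
      cc_rv M s hsM _ (Complex.norm_exp_ofReal_mul_I θ) (hsq _)
    simp_rw [h3]
    have hci : Continuous fun θ : ℝ => cc s 0 (Complex.exp (θ * I))⁻¹ := by
      unfold cc
      have he : Continuous fun θ : ℝ => (Complex.exp (θ * I))⁻¹ :=
        continuous_circ.inv₀ fun θ => Complex.exp_ne_zero _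
      exact ((continuous_num s).comp he).div
        (((continuous_sq s).comp he).add continuous_const) fun θ => by rw [add_zero]; exact hsq _
    rw [integral_sub (integrable_const _) (integrable_mu0 hci), integral_const]
    have h4 : mu0.real Set.univ = 1 := by
      unfold mu0
      rw [Measure.real, Measure.smul_apply, Measure.restrict_apply MeasurableSet.univ,
        Set.univ_inter, Real.volume_Ioc, sub_zero, smul_eq_mul, ENNReal.inv_mul_cancel]
      · rfl
      · exact (ENNReal.ofReal_pos.2 (by positivity)).ne'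
      · exact ENNReal.ofReal_ne_top
    rw [h4, one_smul]
  have h5 : (M : ℝ) ≤ N := by exact_mod_cast hMN
  linarith

theorem one2 : StmtOne2 := by
  intro ι _ s ε N hε hN
  set t : Option ι → Polynomial ℂ := fun o => o.elim (Polynomial.C ((Real.sqrt ε : ℝ) : ℂ)) s with ht
  have ht0 : ∀ u : ℂ, ∃ o, (t o).eval u ≠ 0 := by
    intro u
    refine ⟨none, ?_⟩
    change (Polynomial.C ((Real.sqrt ε : ℝ) : ℂ)).eval u ≠ 0
    rw [Polynomial.eval_C]
    exact Complex.ofReal_ne_zero.2 (Real.sqrt_ne_zero'.2 hε)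
  have htN : ∀ o, (t o).natDegree ≤ N := by
    rintro (_ | f)
    · change (Polynomial.C ((Real.sqrt ε : ℝ) : ℂ)).natDegree ≤ N
      rw [Polynomial.natDegree_C]; exact Nat.zero_le _
    · exact hN f
  have e1 : ∀ u, sq t u = sq s u + ε := by
    intro u
    unfold sq
    rw [Fintype.sum_option]
    change ‖(Polynomial.C ((Real.sqrt ε : ℝ) : ℂ)).eval u‖ ^ 2 + (∑ f, ‖(s f).eval u‖ ^ 2) = _
    rw [Polynomial.eval_C, Complex.norm_real, Real.norm_eq_abs, sq_abs, Real.sq_sqrt hε.le, add_comm]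
  have e2 : ∀ u, ip (fun o => Polynomial.derivative (t o)) t u u =
      ip (fun f => Polynomial.derivative (s f)) s u u := by
    intro u
    unfold ip
    rw [Fintype.sum_option]
    change (Polynomial.derivative (Polynomial.C ((Real.sqrt ε : ℝ) : ℂ))).eval u * _ +
      (∑ f, (Polynomial.derivative (s f)).eval u * (starRingEnd ℂ) ((s f).eval u)) = _
    rw [Polynomial.derivative_C, Polynomial.eval_zero, zero_mul, zero_add]
  have e3 : cc t 0 = cc s ε := by
    funext u
    unfold cc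
    rw [e1, e2, add_zero]
  have h := one3 (Option ι) t N ht0 htN
  rw [e3] at h
  exact h

end Pool.GA
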