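import Pool.Agent.GA.Stmts

/-!
# MP_585e9a_al, row ONE, part A: the easy statements (ONE4, ONE5, ONE6)
-/

set_option autoImplicit false

open MeasureTheory Complex Filter
open scoped ENNReal Topology

namespace Pool.GA

theorem norm_pol (r θ : ℝ) : ‖pol r θ‖ = |r| := by
  unfold pol
  rw [norm_mul, Complex.norm_exp_ofReal_mul_I, mul_one, Complex.norm_real, Real.norm_eq_abs]

theorem one6 : StmtOne6 := by
  intro q hq
  have h : ∀ᵐ r ∂(volume : Measure ℝ),
      r ∉ ((q.roots.toFinset.image (fun z : ℂ => ‖z‖) : Finset ℝ) : Set ℝ) := by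
    rw [← measure_eq_zero_iff_ae_notMem]
    exact (Finset.finite_toSet _).measure_zero _
  filter_upwards [ae_restrict_of_ae h, self_mem_ae_restrict measurableSet_Ioo] with r hr hr'
  refine ae_of_all _ fun θ h0 => hr ?_
  rw [Finset.coe_image, Set.mem_image]
  refine ⟨pol r θ, ?_, ?_⟩
  · rw [Finset.mem_coe, Multiset.mem_toFinset, Polynomial.mem_roots hq]
    exact h0
  · rw [norm_pol, abs_of_pos hr'.1]

section
variable {ι : Type} [Fintype ι]

theorem sq_nonneg' (s : ι → Polynomial ℂ) (u : ℂ) : 0 ≤ sq s u :=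
  Finset.sum_nonneg fun _ _ => by positivity

theorem sq_pos_of (s : ι → Polynomial ℂ) (u : ℂ) (h : ∃ f, (s f).eval u ≠ 0) : 0 < sq s u := by
  obtain ⟨f, hf⟩ := h
  refine Finset.sum_pos' (fun _ _ => by positivity) ⟨f, Finset.mem_univ f, ?_⟩
  have := norm_pos_iff.2 hf
  positivity

theorem continuous_sq (s : ι → Polynomial ℂ) : Continuous (sq s) := by
  unfold sq
  exact continuous_finsetSum _ fun f _ => ((s f).continuous.norm).pow 2

theorem continuous_ip (s t : ι → Polynomial ℂ) : Continuous fun z : ℂ × ℂ => ip s t z.1 z.2 := by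
  unfold ip
  refine continuous_finsetSum _ fun f _ => ?_
  exact ((s f).continuous.comp continuous_fst).mul
    (Complex.continuous_conj.comp ((t f).continuous.comp continuous_snd))

theorem continuous_ip' (s t : ι → Polynomial ℂ) : Continuous fun z : ℂ => ip s t z z :=
  (continuous_ip s t).comp (continuous_id.prodMk continuous_id)

/-- Gram determinant of `a` and `a + h δ`. -/
theorem gram_add (a δ : ι → ℂ) (h : ℝ) :
    (∑ f, ‖a f‖ ^ 2) * (∑ f, ‖a f + h * δ f‖ ^ 2) -
      ‖∑ f, a f * (starRingEnd ℂ) (a f + h * δ f)‖ ^ 2 =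
    h ^ 2 * ((∑ f, ‖a f‖ ^ 2) * (∑ f, ‖δ f‖ ^ 2) - ‖∑ f, a f * (starRingEnd ℂ) (δ f)‖ ^ 2) := by
  set A : ℝ := ∑ f, ‖a f‖ ^ 2 with hA
  set D : ℝ := ∑ f, ‖δ f‖ ^ 2 with hD
  set P : ℂ := ∑ f, a f * (starRingEnd ℂ) (δ f) with hP
  have e1 : (∑ f, ‖a f + h * δ f‖ ^ 2 : ℝ) = A + 2 * h * P.re + h ^ 2 * D := by
    rw [hA, hD, hP, Complex.re_sum, Finset.mul_sum, Finset.mul_sum, ← Finset.sum_add_distrib,
      ← Finset.sum_add_distrib]
    refine Finset.sum_congr rfl fun f _ => ?_
    rw [← Complex.normSq_eq_norm_sq, ← Complex.normSq_eq_norm_sq, ← Complex.normSq_eq_norm_sq]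
    simp only [Complex.normSq_apply, Complex.add_re, Complex.add_im, Complex.mul_re, Complex.mul_im,
      Complex.ofReal_re, Complex.ofReal_im, Complex.conj_re, Complex.conj_im]
    ring
  have e2 : (∑ f, a f * (starRingEnd ℂ) (a f + h * δ f) : ℂ) = (A : ℂ) + h * P := by
    rw [hA, hP, Complex.ofReal_sum, Finset.mul_sum, ← Finset.sum_add_distrib]
    refine Finset.sum_congr rfl fun f _ => ?_
    rw [map_add, map_mul, Complex.conj_ofReal, Complex.ofReal_pow, ← Complex.mul_conj']
    ring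
  rw [e1, e2]
  rw [← Complex.normSq_eq_norm_sq, ← Complex.normSq_eq_norm_sq]
  simp only [Complex.normSq_apply, Complex.add_re, Complex.add_im, Complex.mul_re, Complex.mul_im,
      Complex.ofReal_re, Complex.ofReal_im]
  ring

end

end Pool.GA
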