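import Pool.Agent.Helper58.GA.OneA

/-!
# MP_585e9a_al, row ONE, part B: ONE4, ONE5
-/

set_option autoImplicit false

open MeasureTheory Complex Filter
open scoped ENNReal Topology

namespace Pool.GA

theorem one4 : StmtOne4 := by
  intro ι _ s u hu
  set a : ι → ℂ := fun f => (s f).eval u with ha
  set t : ℕ → ℂ := fun n => 1 / ((n : ℂ) + 1) with ht
  have htr : ∀ n, t n = ((1 / ((n : ℝ) + 1) : ℝ) : ℂ) := fun n => by rw [ht]; push_cast; rfl
  have ht0 : ∀ n, t n ≠ 0 := fun n => by
    rw [htr]; exact Complex.ofReal_ne_zero.2 (by positivity)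
  have htt : Tendsto t atTop (𝓝 0) := by
    have h1 : Tendsto (fun n : ℕ => (1 / ((n : ℝ) + 1) : ℝ)) atTop (𝓝 0) :=
      tendsto_one_div_add_atTop_nhds_zero_nat
    have h2 := (Complex.continuous_ofReal.tendsto 0).comp h1
    rw [Complex.ofReal_zero] at h2
    exact h2.congr fun n => (htr n).symm
  have htt' : Tendsto t atTop (𝓝[≠] 0) :=
    tendsto_nhdsWithin_iff.2 ⟨htt, Eventually.of_forall ht0⟩
  set δ : ℕ → ι → ℂ := fun n f => (t n)⁻¹ • ((s f).eval (u + t n) - (s f).eval u) with hδ
  have hδt : ∀ f, Tendsto (fun n => δ n f) atTop (𝓝 ((Polynomial.derivative (s f)).eval u)) := by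
    intro f
    exact (hasDerivAt_iff_tendsto_slope_zero.1 ((s f).hasDerivAt u)).comp htt'
  have hv : ∀ n f, (s f).eval (u + t n) = a f + ((1 / ((n : ℝ) + 1) : ℝ) : ℂ) * δ n f := by
    intro n f
    rw [← htr n, hδ, ha]
    simp only [smul_eq_mul]
    rw [mul_inv_cancel_left₀ (ht0 n)]
    ring
  have hB : Tendsto (fun n => sq s (u + t n)) atTop (𝓝 (sq s u)) := by
    have h1 : Tendsto (fun n => u + t n) atTop (𝓝 u) := by
      simpa using (tendsto_const_nhds (x := u)).add htt
    exact ((continuous_sq s).tendsto u).comp h1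
  have hD : Tendsto (fun n => ∑ f, ‖δ n f‖ ^ 2) atTop
      (𝓝 (sq (fun f => Polynomial.derivative (s f)) u)) := by
    unfold sq
    exact tendsto_finsetSum _ fun f _ => ((hδt f).norm).pow 2
  have hP : Tendsto (fun n => ∑ f, a f * (starRingEnd ℂ) (δ n f)) atTop
      (𝓝 (∑ f, a f * (starRingEnd ℂ) ((Polynomial.derivative (s f)).eval u))) :=
    tendsto_finsetSum _ fun f _ => tendsto_const_nhds.mul
      ((Complex.continuous_conj.tendsto _).comp (hδt f))
  have hlim : Tendsto (fun n => (sq s u * (∑ f, ‖δ n f‖ ^ 2) -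
      ‖∑ f, a f * (starRingEnd ℂ) (δ n f)‖ ^ 2) / (sq s u * sq s (u + t n))) atTop
      (𝓝 ((sq s u * sq (fun f => Polynomial.derivative (s f)) u -
      ‖∑ f, a f * (starRingEnd ℂ) ((Polynomial.derivative (s f)).eval u)‖ ^ 2) /
        (sq s u * sq s u))) :=
    ((tendsto_const_nhds.mul hD).sub (hP.norm.pow 2)).div (tendsto_const_nhds.mul hB)
      (mul_ne_zero hu hu)
  have hk : kk s u = (sq s u * sq (fun f => Polynomial.derivative (s f)) u -
      ‖∑ f, a f * (starRingEnd ℂ) ((Polynomial.derivative (s f)).eval u)‖ ^ 2) /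
        (sq s u * sq s u) := by
    unfold kk
    have : ‖ip (fun f => Polynomial.derivative (s f)) s u u‖ =
        ‖∑ f, a f * (starRingEnd ℂ) ((Polynomial.derivative (s f)).eval u)‖ := by
      rw [← Complex.norm_conj (∑ f, a f * (starRingEnd ℂ) ((Polynomial.derivative (s f)).eval u)),
        map_sum]
      unfold ip
      congr 1
      refine Finset.sum_congr rfl fun f _ => ?_
      rw [map_mul, Complex.conj_conj, mul_comm]
    rw [this, pow_two (sq s u)]
  rw [hk]
  refine hlim.congr' ?_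
  filter_upwards [hB.eventually_ne hu] with n hn
  have hg := gram_add a (δ n) (1 / ((n : ℝ) + 1))
  have e1 : (∑ f, ‖a f + ((1 / ((n : ℝ) + 1) : ℝ) : ℂ) * δ n f‖ ^ 2) = sq s (u + t n) := by
    unfold sq
    exact Finset.sum_congr rfl fun f _ => by rw [hv]
  have e2 : (∑ f, a f * (starRingEnd ℂ) (a f + ((1 / ((n : ℝ) + 1) : ℝ) : ℂ) * δ n f)) =
      ip s s u (u + t n) := by
    unfold ip
    exact Finset.sum_congr rfl fun f _ => by rw [hv]
  have e3 : (∑ f, ‖a f‖ ^ 2) = sq s u := rfl
  rw [e1, e2, e3] at hg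
  have hn1 : ((n : ℝ) + 1) ≠ 0 := by positivity
  have e4 : 1 - ‖ip s s u (u + t n)‖ ^ 2 / (sq s u * sq s (u + t n)) =
      (sq s u * sq s (u + t n) - ‖ip s s u (u + t n)‖ ^ 2) / (sq s u * sq s (u + t n)) := by
    rw [sub_div, div_self (mul_ne_zero hu hn)]
  have e5 : ∀ x : ℝ, x = ((n : ℝ) + 1) ^ 2 * ((1 / ((n : ℝ) + 1)) ^ 2 * x) := by
    intro x; field_simp
  rw [e4, hg, ← mul_div_assoc]
  congr 1
  exact e5 _

section
variable {ι : Type} [Fintype ι]

theorem continuous_circ : Continuous fun θ : ℝ => Complex.exp (θ * I) := by fun_prop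

instance : IsFiniteMeasure mu0 := by
  unfold mu0
  refine ⟨?_⟩
  rw [Measure.smul_apply, Measure.restrict_apply MeasurableSet.univ, Set.univ_inter, Real.volume_Ioc]
  exact ENNReal.mul_lt_top (ENNReal.inv_lt_top.2 (ENNReal.ofReal_pos.2 (by positivity)))
    ENNReal.ofReal_lt_top

theorem integrable_mu0 {V : Type} [NormedAddCommGroup V] {g : ℝ → V} (hg : Continuous g) :
    Integrable g mu0 := by
  unfold mu0
  refine Integrable.smul_measure ?_ (ENNReal.inv_ne_top.2 (by positivity))
  exact (hg.integrableOn_Icc (a := 0) (b := 2 * Real.pi)).mono_set Set.Ioc_subset_Icc_self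

theorem continuous_num (s : ι → Polynomial ℂ) :
    Continuous fun u : ℂ => (u * ip (fun f => Polynomial.derivative (s f)) s u u).re :=
  Complex.continuous_re.comp (continuous_id.mul (continuous_ip' _ _))

theorem continuous_cc (s : ι → Polynomial ℂ) (ε : ℝ) (_ : 0 ≤ ε)
    (h : ∀ θ : ℝ, sq s (Complex.exp (θ * I)) + ε ≠ 0) :
    Continuous fun θ : ℝ => cc s ε (Complex.exp (θ * I)) := by
  unfold cc
  exact ((continuous_num s).comp continuous_circ).div
    (((continuous_sq s).comp continuous_circ).add continuous_const) h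

end

theorem one5 : StmtOne5 := by
  intro ι _ s hs
  have hs' : ∀ θ : ℝ, 0 < sq s (Complex.exp (θ * I)) := fun θ =>
    lt_of_le_of_ne (sq_nonneg' _ _) (Ne.symm (hs θ))
  unfold cmean
  refine tendsto_integral_of_dominated_convergence (fun θ => |cc s 0 (Complex.exp (θ * I))|)
    ?_ ?_ ?_ ?_
  · intro n
    exact (continuous_cc s _ (by positivity) fun θ => by
      have := hs' θ; positivity).aestronglyMeasurable
  · exact integrable_mu0 (continuous_abs.comp (continuous_cc s 0 le_rfl fun θ => by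
      rw [add_zero]; exact hs θ))
  · intro n
    refine ae_of_all _ fun θ => ?_
    have h0 := hs' θ
    have h1 : (0 : ℝ) ≤ 1 / ((n : ℝ) + 1) := by positivity
    unfold cc
    rw [Real.norm_eq_abs, abs_div, abs_div, add_zero]
    refine div_le_div_of_nonneg_left (abs_nonneg _) (abs_pos.2 h0.ne') ?_
    rw [abs_of_pos h0, abs_of_pos (by positivity)]
    linarith
  · refine ae_of_all _ fun θ => ?_
    have h0 := hs' θ
    unfold cc
    refine Tendsto.div tendsto_const_nhds ?_ (by rw [add_zero]; exact h0.ne')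
    exact tendsto_const_nhds.add tendsto_one_div_add_atTop_nhds_zero_nat

end Pool.GA
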