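import Pool.Agent.Helper58.GA.OneB

/-!
# MP_585e9a_al, row ONE, part C: the mean over the circle is the integral of the curvature
-/

set_option autoImplicit false

open MeasureTheory Complex Filter
open scoped ENNReal Topology

namespace Pool.GA

section
variable {ι : Type} [Fintype ι]

/-- derivative of the vector -/
noncomputable def dv (s : ι → Polynomial ℂ) : ι → Polynomial ℂ := fun f => Polynomial.derivative (s f)

theorem sq_eq (s : ι → Polynomial ℂ) (u : ℂ) : ((sq s u : ℝ) : ℂ) = ip s s u u := by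
  unfold sq ip
  rw [Complex.ofReal_sum]
  refine Finset.sum_congr rfl fun f _ => ?_
  rw [Complex.ofReal_pow, ← Complex.mul_conj']

theorem conj_ip (s t : ι → Polynomial ℂ) (u v : ℂ) :
    (starRingEnd ℂ) (ip s t u v) = ip t s v u := by
  unfold ip
  rw [map_sum]
  refine Finset.sum_congr rfl fun f _ => ?_
  rw [map_mul, Complex.conj_conj, mul_comm]

theorem hasDerivAt_ip (s t : ι → Polynomial ℂ) (γ : ℝ → ℂ) (v : ℂ) (x : ℝ)
    (hγ : HasDerivAt γ v x) :
    HasDerivAt (fun x => ip s t (γ x) (γ x))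
      (v * ip (dv s) t (γ x) (γ x) + (starRingEnd ℂ) v * ip s (dv t) (γ x) (γ x)) x := by
  have h : ∀ f : ι, HasDerivAt (fun x => (s f).eval (γ x) * (starRingEnd ℂ) ((t f).eval (γ x)))
      (((dv s f).eval (γ x) * v) * (starRingEnd ℂ) ((t f).eval (γ x)) +
        (s f).eval (γ x) * (starRingEnd ℂ) ((dv t f).eval (γ x) * v)) x := by
    intro f
    have h1 : HasDerivAt (fun x => (s f).eval (γ x)) ((dv s f).eval (γ x) * v) x :=
      ((s f).hasDerivAt (γ x)).comp x hγ
    have h2 : HasDerivAt (fun x => (t f).eval (γ x)) ((dv t f).eval (γ x) * v) x :=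
      ((t f).hasDerivAt (γ x)).comp x hγ
    exact h1.mul h2.star
  have h3 := HasDerivAt.fun_sum (u := Finset.univ) fun f (_ : f ∈ Finset.univ) => h f
  unfold ip
  refine h3.congr_deriv ?_
  rw [Finset.mul_sum, Finset.mul_sum, ← Finset.sum_add_distrib]
  refine Finset.sum_congr rfl fun f _ => ?_
  rw [map_mul]
  ring

/-- `u s' / s` -/
noncomputable def FF (s : ι → Polynomial ℂ) (u : ℂ) : ℂ := u * ip (dv s) s u u / ip s s u u

theorem cc_eq (s : ι → Polynomial ℂ) (u : ℂ) : cc s 0 u = (FF s u).re := by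
  unfold cc FF
  rw [← sq_eq, Complex.div_ofReal_re, add_zero]
  rfl

/-- holomorphic derivative of `FF` -/
noncomputable def PP (s : ι → Polynomial ℂ) (u : ℂ) : ℂ :=
  ((ip (dv s) s u u + u * ip (dv (dv s)) s u u) * ip s s u u -
    u * ip (dv s) s u u * ip (dv s) s u u) / (ip s s u u) ^ 2

/-- antiholomorphic derivative of `FF` -/
noncomputable def QQ (s : ι → Polynomial ℂ) (u : ℂ) : ℂ :=
  (u * ip (dv s) (dv s) u u * ip s s u u -
    u * ip (dv s) s u u * ip s (dv s) u u) / (ip s s u u) ^ 2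

theorem hasDerivAt_FF (s : ι → Polynomial ℂ) (γ : ℝ → ℂ) (v : ℂ) (x : ℝ)
    (hγ : HasDerivAt γ v x) (h0 : ip s s (γ x) (γ x) ≠ 0) :
    HasDerivAt (fun x => FF s (γ x)) (v * PP s (γ x) + (starRingEnd ℂ) v * QQ s (γ x)) x := by
  have h := (hγ.mul (hasDerivAt_ip (dv s) s γ v x hγ)).div (hasDerivAt_ip s s γ v x hγ) h0
  unfold FF
  refine h.congr_deriv ?_
  unfold PP QQ
  field_simp
  simp only [Pi.mul_apply]
  ring

theorem kk_eq (s : ι → Polynomial ℂ) (u : ℂ) : ((kk s u : ℝ) : ℂ) =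
    (ip (dv s) (dv s) u u * ip s s u u - ip (dv s) s u u * ip s (dv s) u u) / (ip s s u u) ^ 2 := by
  unfold kk
  rw [Complex.ofReal_div, Complex.ofReal_sub, Complex.ofReal_mul, Complex.ofReal_pow, sq_eq, sq_eq,
    Complex.ofReal_pow, ← Complex.mul_conj', conj_ip]
  change (_ * ip (dv s) (dv s) u u - ip (dv s) s u u * ip s (dv s) u u) / _ = _
  rw [mul_comm (ip s s u u), sq_eq]

theorem conj_mul_QQ (s : ι → Polynomial ℂ) (u : ℂ) :
    (starRingEnd ℂ) u * QQ s u = ((‖u‖ ^ 2 * kk s u : ℝ) : ℂ) := by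
  rw [Complex.ofReal_mul, kk_eq, Complex.ofReal_pow, ← Complex.mul_conj']
  unfold QQ
  ring

theorem hasDerivAt_pol_r (r θ : ℝ) : HasDerivAt (fun r => pol r θ) (Complex.exp (θ * I)) r := by
  unfold pol
  have h := (hasDerivAt_id r).ofReal_comp.mul_const (Complex.exp (θ * I))
  simpa using h

theorem hasDerivAt_pol_θ (r θ : ℝ) : HasDerivAt (fun θ => pol r θ) (I * pol r θ) θ := by
  unfold pol
  have h := (((hasDerivAt_id θ).ofReal_comp.mul_const I).cexp).const_mul (r : ℂ)
  refine h.congr_deriv ?_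
  simp only [id, Complex.ofReal_one, one_mul]
  ring

theorem radial (s : ι → Polynomial ℂ) (r θ : ℝ) :
    (r : ℂ) * (Complex.exp (θ * I) * PP s (pol r θ) +
      (starRingEnd ℂ) (Complex.exp (θ * I)) * QQ s (pol r θ)) +
    I * (I * pol r θ * PP s (pol r θ) + (starRingEnd ℂ) (I * pol r θ) * QQ s (pol r θ)) =
    ((2 * r ^ 2 * kk s (pol r θ) : ℝ) : ℂ) := by
  have h := conj_mul_QQ s (pol r θ)
  have h1 : (starRingEnd ℂ) (pol r θ) = (r : ℂ) * (starRingEnd ℂ) (Complex.exp (θ * I)) := by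
    unfold pol; rw [map_mul, Complex.conj_ofReal]
  have h2 : pol r θ = (r : ℂ) * Complex.exp (θ * I) := rfl
  rw [map_mul, Complex.conj_I]
  have h3 : ((2 * r ^ 2 * kk s (pol r θ) : ℝ) : ℂ) = 2 * ((‖pol r θ‖ ^ 2 * kk s (pol r θ) : ℝ) : ℂ) := by
    rw [norm_pol, sq_abs]; push_cast; ring
  rw [h3, ← h]
  have h4 : (r : ℂ) * (Complex.exp (θ * I) * PP s (pol r θ)) = pol r θ * PP s (pol r θ) := by
    rw [← mul_assoc]; rfl
  have h5 : (r : ℂ) * ((starRingEnd ℂ) (Complex.exp (θ * I)) * QQ s (pol r θ)) =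
      (starRingEnd ℂ) (pol r θ) * QQ s (pol r θ) := by
    rw [← mul_assoc, h1]
  rw [mul_add, h4, h5]
  linear_combination (pol r θ * PP s (pol r θ) - (starRingEnd ℂ) (pol r θ) * QQ s (pol r θ)) * Complex.I_sq

theorem continuous_FF (s : ι → Polynomial ℂ) (h : ∀ u, ip s s u u ≠ 0) : Continuous (FF s) := by
  unfold FF
  exact (continuous_id.mul (continuous_ip' _ _)).div (continuous_ip' _ _) h

theorem continuous_PP (s : ι → Polynomial ℂ) (h : ∀ u, ip s s u u ≠ 0) : Continuous (PP s) := by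
  unfold PP
  refine Continuous.div ?_ ((continuous_ip' _ _).pow 2) fun u => pow_ne_zero 2 (h u)
  exact (((continuous_ip' _ _).add (continuous_id.mul (continuous_ip' _ _))).mul
    (continuous_ip' _ _)).sub ((continuous_id.mul (continuous_ip' _ _)).mul (continuous_ip' _ _))

theorem continuous_QQ (s : ι → Polynomial ℂ) (h : ∀ u, ip s s u u ≠ 0) : Continuous (QQ s) := by
  unfold QQ
  refine Continuous.div ?_ ((continuous_ip' _ _).pow 2) fun u => pow_ne_zero 2 (h u)
  exact ((continuous_id.mul (continuous_ip' _ _)).mul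
    (continuous_ip' _ _)).sub ((continuous_id.mul (continuous_ip' _ _)).mul (continuous_ip' _ _))

theorem continuous_kk (s : ι → Polynomial ℂ) (h : ∀ u, sq s u ≠ 0) : Continuous (kk s) := by
  unfold kk
  refine Continuous.div ?_ ((continuous_sq _).pow 2) fun u => pow_ne_zero 2 (h u)
  exact ((continuous_sq _).mul (continuous_sq _)).sub ((continuous_ip' _ _).norm.pow 2)

theorem continuous_pol : Continuous fun p : ℝ × ℝ => pol p.1 p.2 := by
  unfold pol; fun_prop

theorem pol_one (θ : ℝ) : pol 1 θ = Complex.exp (θ * I) := by unfold pol; simp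

theorem pol_zero (θ : ℝ) : pol 0 θ = 0 := by unfold pol; simp

theorem pol_two_pi (r : ℝ) : pol r (2 * Real.pi) = pol r 0 := by
  unfold pol
  push_cast
  rw [Complex.exp_two_pi_mul_I, zero_mul, Complex.exp_zero]

/-- the main identity -/
theorem mean_FF (s : ι → Polynomial ℂ) (h : ∀ u, ip s s u u ≠ 0) :
    (∫ θ in (0 : ℝ)..2 * Real.pi, FF s (Complex.exp (θ * I))) =
      ∫ r in (0 : ℝ)..1, ∫ θ in (0 : ℝ)..2 * Real.pi, ((2 * r * kk s (pol r θ) : ℝ) : ℂ) := by
  set G : ℝ → ℝ → ℂ := fun θ r => Complex.exp (θ * I) * PP s (pol r θ) +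
      (starRingEnd ℂ) (Complex.exp (θ * I)) * QQ s (pol r θ) with hG
  have hGc : Continuous (Function.uncurry G) := by
    have hp : Continuous fun p : ℝ × ℝ => pol p.2 p.1 := continuous_pol.comp continuous_swap
    have he : Continuous fun p : ℝ × ℝ => Complex.exp (p.1 * I) := by fun_prop
    have : Function.uncurry G = fun p : ℝ × ℝ => Complex.exp (p.1 * I) * PP s (pol p.2 p.1) +
      (starRingEnd ℂ) (Complex.exp (p.1 * I)) * QQ s (pol p.2 p.1) := by
      funext p; rfl
    rw [this]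
    exact (he.mul ((continuous_PP s h).comp hp)).add
      ((Complex.continuous_conj.comp he).mul ((continuous_QQ s h).comp hp))
  have h1 : ∀ θ : ℝ, (∫ r in (0 : ℝ)..1, G θ r) = FF s (Complex.exp (θ * I)) := by
    intro θ
    have hd : ∀ r ∈ Set.uIcc (0 : ℝ) 1, HasDerivAt (fun r => FF s (pol r θ)) (G θ r) r :=
      fun r _ => hasDerivAt_FF s (fun r => pol r θ) _ r (hasDerivAt_pol_r r θ) (h _)
    rw [intervalIntegral.integral_eq_sub_of_hasDerivAt hd]
    · rw [pol_one, pol_zero]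
      unfold FF
      simp
    · exact ((hGc.comp (Continuous.prodMk_right θ)).intervalIntegrable _ _)
  have h2 : (∫ θ in (0 : ℝ)..2 * Real.pi, FF s (Complex.exp (θ * I))) =
      ∫ r in (0 : ℝ)..1, ∫ θ in (0 : ℝ)..2 * Real.pi, G θ r := by
    rw [← intervalIntegral_intervalIntegral_swap]
    · exact intervalIntegral.integral_congr fun θ _ => (h1 θ).symm
    · have hK : IntegrableOn (Function.uncurry G)
          (Set.uIcc 0 (2 * Real.pi) ×ˢ Set.uIcc (0 : ℝ) 1) :=
        hGc.continuousOn.integrableOn_compact (isCompact_uIcc.prod isCompact_uIcc)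
      exact hK.mono_set (Set.prod_mono Set.uIoc_subset_uIcc Set.uIoc_subset_uIcc)
  rw [h2]
  refine intervalIntegral.integral_congr_ae (ae_of_all _ fun r hr => ?_)
  have hr0 : (0 : ℝ) < r := by
    rw [Set.uIoc_of_le zero_le_one] at hr; exact hr.1
  have hr0' : (r : ℂ) ≠ 0 := Complex.ofReal_ne_zero.2 hr0.ne'
  set H : ℝ → ℂ := fun θ => I * pol r θ * PP s (pol r θ) +
    (starRingEnd ℂ) (I * pol r θ) * QQ s (pol r θ) with hH
  have hpθ : Continuous fun θ : ℝ => pol r θ := continuous_pol.comp (Continuous.prodMk_right r)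
  have hHc : Continuous H :=
    ((continuous_const.mul hpθ).mul ((continuous_PP s h).comp hpθ)).add
      ((Complex.continuous_conj.comp (continuous_const.mul hpθ)).mul
        ((continuous_QQ s h).comp hpθ))
  have h3 : (∫ θ in (0 : ℝ)..2 * Real.pi, H θ) = 0 := by
    rw [intervalIntegral.integral_eq_sub_of_hasDerivAt (f := fun θ => FF s (pol r θ))
      (fun θ _ => hasDerivAt_FF s (fun θ => pol r θ) _ θ (hasDerivAt_pol_θ r θ) (h _))
      (hHc.intervalIntegrable _ _)]
    simp only [pol_two_pi, sub_self]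
  have hsq : ∀ u, sq s u ≠ 0 := fun u hu => h u (by rw [← sq_eq, hu, Complex.ofReal_zero])
  have hGr : Continuous fun θ => G θ r := hGc.comp (Continuous.prodMk_left r)
  have hkc : Continuous fun θ : ℝ => ((2 * r ^ 2 * kk s (pol r θ) : ℝ) : ℂ) :=
    Complex.continuous_ofReal.comp (continuous_const.mul ((continuous_kk s hsq).comp hpθ))
  have h4 : (r : ℂ) * (∫ θ in (0 : ℝ)..2 * Real.pi, G θ r) + I * (∫ θ in (0 : ℝ)..2 * Real.pi, H θ) =
      ∫ θ in (0 : ℝ)..2 * Real.pi, ((2 * r ^ 2 * kk s (pol r θ) : ℝ) : ℂ) := by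
    rw [← intervalIntegral.integral_const_mul, ← intervalIntegral.integral_const_mul,
      ← intervalIntegral.integral_add]
    · exact intervalIntegral.integral_congr fun θ _ => radial s r θ
    · exact (continuous_const.mul hGr).intervalIntegrable _ _
    · exact (continuous_const.mul hHc).intervalIntegrable _ _
  rw [h3, mul_zero, add_zero] at h4
  have h5 : (∫ θ in (0 : ℝ)..2 * Real.pi, ((2 * r ^ 2 * kk s (pol r θ) : ℝ) : ℂ)) =
      (r : ℂ) * ∫ θ in (0 : ℝ)..2 * Real.pi, ((2 * r * kk s (pol r θ) : ℝ) : ℂ) := by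
    rw [← intervalIntegral.integral_const_mul]
    refine intervalIntegral.integral_congr fun θ _ => ?_
    push_cast
    ring
  rw [h5] at h4
  exact mul_left_cancel₀ hr0' h4

/-- the main identity, real form -/
theorem mean_cc (s : ι → Polynomial ℂ) (h : ∀ u : ℂ, ∃ f, (s f).eval u ≠ 0) :
    cmean (cc s 0) = ∫ r in (0 : ℝ)..1, ∫ θ in (0 : ℝ)..2 * Real.pi, r / Real.pi * kk s (pol r θ) := by
  have hsq : ∀ u, sq s u ≠ 0 := fun u => (sq_pos_of s u (h u)).ne'
  have hip : ∀ u, ip s s u u ≠ 0 := fun u => by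
    rw [← sq_eq]; exact Complex.ofReal_ne_zero.2 (hsq u)
  have hm := mean_FF s hip
  have e1 : cmean (cc s 0) = (2 * Real.pi)⁻¹ *
      (∫ θ in (0 : ℝ)..2 * Real.pi, FF s (Complex.exp (θ * I))).re := by
    unfold cmean mu0
    rw [integral_smul_measure, ENNReal.toReal_inv, ENNReal.toReal_ofReal (by positivity), smul_eq_mul]
    congr 1
    rw [intervalIntegral.integral_of_le (by positivity)]
    have hint : Integrable (fun θ : ℝ => FF s (Complex.exp (θ * I)))
        (volume.restrict (Set.Ioc 0 (2 * Real.pi))) :=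
      (((continuous_FF s hip).comp continuous_circ).integrableOn_Icc
        (a := 0) (b := 2 * Real.pi)).mono_set Set.Ioc_subset_Icc_self
    have := integral_re hint
    simp only [RCLike.re_to_complex] at this
    rw [← this]
    refine integral_congr_ae (ae_of_all _ fun θ => cc_eq s _)
  rw [e1, hm]
  have e2 : (∫ r in (0 : ℝ)..1, ∫ θ in (0 : ℝ)..2 * Real.pi, ((2 * r * kk s (pol r θ) : ℝ) : ℂ)) =
      ((∫ r in (0 : ℝ)..1, ∫ θ in (0 : ℝ)..2 * Real.pi, 2 * r * kk s (pol r θ) : ℝ) : ℂ) := by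
    rw [← intervalIntegral.integral_ofReal]
    refine intervalIntegral.integral_congr fun r _ => ?_
    exact intervalIntegral.integral_ofReal
  rw [e2, Complex.ofReal_re, ← intervalIntegral.integral_const_mul]
  refine intervalIntegral.integral_congr fun r _ => ?_
  change (2 * Real.pi)⁻¹ * (∫ θ in (0 : ℝ)..2 * Real.pi, 2 * r * kk s (pol r θ)) = _
  rw [← intervalIntegral.integral_const_mul]
  refine intervalIntegral.integral_congr fun θ _ => ?_
  change (2 * Real.pi)⁻¹ * (2 * r * kk s (pol r θ)) = r / Real.pi * kk s (pol r θ)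
  have := Real.pi_ne_zero
  field_simp

end

end Pool.GA
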